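import Pool.Agent.Q238.RS.Listing

namespace Q238.RS

open Equiv Finset
open scoped commutatorElement

variable {G : Type*} [Group G]

theorem conj_flip {A : Set G} (h : ∀ a ∈ A, ∀ g : G, g * a * g⁻¹ ∈ A) :
    ∀ a ∈ A, ∀ g : G, g⁻¹ * a * g ∈ A := by
  intro a ha g
  have := h a ha g⁻¹
  rwa [inv_inv] at this

theorem closure_normal {A : Set G} (h : ∀ a ∈ A, ∀ g : G, g * a * g⁻¹ ∈ A) :
    (Subgroup.closure A).Normal := by
  refine ⟨fun x hx g => ?_⟩
  induction hx using Subgroup.closure_induction with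
  | mem a ha => exact Subgroup.subset_closure (h a ha g)
  | one => simp
  | mul a b _ _ ha hb =>
    have h2 : g * (a * b) * g⁻¹ = (g * a * g⁻¹) * (g * b * g⁻¹) := by group
    rw [h2]
    exact Subgroup.mul_mem _ ha hb
  | inv a _ ha =>
    have h2 : g * a⁻¹ * g⁻¹ = (g * a * g⁻¹)⁻¹ := by group
    rw [h2]
    exact Subgroup.inv_mem _ ha

/-- Conjugation-closed generating sets. -/
theorem closed_listing_conj [Finite G] [Nontrivial G] {A : Set G} (hinv : ∀ a ∈ A, a⁻¹ ∈ A)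
    (hconj : ∀ a ∈ A, ∀ g : G, g * a * g⁻¹ ∈ A) (hgen : Subgroup.closure A = ⊤) :
    ∃ l : List G, IsListing A l ∧ l.prod = 1 := by
  have h := hcyc_closure hinv (conj_flip hconj) (by rw [hgen]; exact top_ne_bot)
  rw [hgen, Subgroup.coe_top] at h
  exact closed_listing_of_hcyc h

theorem closed_listing_few [Finite G] {A A0 : Set G} (hinv : ∀ a ∈ A, a⁻¹ ∈ A)
    (hsub : A0 ⊆ A) (h0inv : ∀ a ∈ A0, a⁻¹ ∈ A0)
    (h0conj : ∀ a ∈ A0, ∀ g : G, g * a * g⁻¹ ∈ A0) (C : Finset G) (hC : ∀ c ∈ C, c ∈ A)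
    (hcl : Subgroup.closure (A0 ∪ (C : Set G)) = ⊤)
    (hcard : C.card < Nat.card (Subgroup.closure A0)) (hne : Subgroup.closure A0 ≠ ⊥) :
    ∃ l : List G, IsListing A l ∧ l.prod = 1 := by
  apply closed_listing_of_hcyc
  refine HCyc.right hinv hsub h0inv (conj_flip h0conj) (closure_normal h0conj)
    (hcyc_closure h0inv (conj_flip h0conj) hne) C hC ?_ hcard
  rw [eq_top_iff, ← hcl]
  apply Subgroup.closure_mono
  exact Set.union_subset_union_left _ Subgroup.subset_closure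

theorem closed_listing_index [Finite G] {A A0 : Set G} (hinv : ∀ a ∈ A, a⁻¹ ∈ A)
    (hgen : Subgroup.closure A = ⊤) (hsub : A0 ⊆ A) (h0inv : ∀ a ∈ A0, a⁻¹ ∈ A0)
    (h0conj : ∀ a ∈ A0, ∀ g : G, g * a * g⁻¹ ∈ A0) (hne : Subgroup.closure A0 ≠ ⊥)
    (hidx : (Subgroup.closure A0).index < 2 ^ Nat.card (Subgroup.closure A0)) :
    ∃ l : List G, IsListing A l ∧ l.prod = 1 :=
  closed_listing_of_hcyc
    (hcyc_of_normal_subset hinv hgen hsub h0inv (conj_flip h0conj) hne hidx)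

/-- Reduction to the quotient. -/
theorem listing_of_quotient [Finite G] {A A0 : Set G} (hsub : A0 ⊆ A)
    (h0inv : ∀ a ∈ A0, a⁻¹ ∈ A0) (h0conj : ∀ a ∈ A0, ∀ g : G, g * a * g⁻¹ ∈ A0)
    (N : Subgroup G) [N.Normal] (hN : Subgroup.closure A0 = N)
    (h : ∃ l : List (G ⧸ N), IsListing ((QuotientGroup.mk : G → G ⧸ N) '' A) l) :
    ∃ l : List G, IsListing A l := by
  obtain ⟨l, hl⟩ := h
  obtain ⟨ν, hν0, hν⟩ := path_closure h0inv (conj_flip h0conj)
  rw [hN] at hν
  obtain ⟨s, hs⟩ := path_of_quotient N hsub hν0 hν (path_of_listing hl)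
  have hne : A.Nonempty := by
    have h1 : 0 < l.length := by rw [hl.1]; exact Nat.card_pos
    obtain ⟨a, ha⟩ := List.exists_mem_of_length_pos h1
    obtain ⟨b, hb, -⟩ := hl.2.1 a ha
    exact ⟨b, hb⟩
  obtain ⟨a0, ha0⟩ := hne
  exact listing_of_path ha0 hs

/-- If the commutator subgroup lies in the subgroup generated by the conjugation-closed part,
there is a listing sequence. -/
theorem listing_of_commutator [Finite G] {A A0 : Set G} (hA : A.Nonempty)
    (hinv : ∀ a ∈ A, a⁻¹ ∈ A) (hgen : Subgroup.closure A = ⊤) (hsub : A0 ⊆ A)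
    (h0inv : ∀ a ∈ A0, a⁻¹ ∈ A0) (h0conj : ∀ a ∈ A0, ∀ g : G, g * a * g⁻¹ ∈ A0)
    (hcomm : commutator G ≤ Subgroup.closure A0) : ∃ l : List G, IsListing A l := by
  have hN := closure_normal h0conj
  refine listing_of_quotient hsub h0inv h0conj (Subgroup.closure A0) rfl ?_
  have hab : ∀ x y : G ⧸ Subgroup.closure A0, x * y = y * x := by
    intro x y
    obtain ⟨a, rfl⟩ := QuotientGroup.mk_surjective x
    obtain ⟨b, rfl⟩ := QuotientGroup.mk_surjective y
    rw [← QuotientGroup.mk_mul, ← QuotientGroup.mk_mul, QuotientGroup.eq]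
    apply hcomm
    have h1 : (a * b)⁻¹ * (b * a) = ⁅b⁻¹, a⁻¹⁆ := by
      simp only [commutatorElement_def, inv_inv, mul_inv_rev, mul_assoc]
    rw [h1, commutator_def]
    exact Subgroup.commutator_mem_commutator (Subgroup.mem_top _) (Subgroup.mem_top _)
  obtain ⟨a0, ha0⟩ := hA
  by_cases hnt : Nontrivial (G ⧸ Subgroup.closure A0)
  · obtain ⟨l, hl, -⟩ := closed_listing_conj (G := G ⧸ Subgroup.closure A0)
      (A := (QuotientGroup.mk : G → G ⧸ Subgroup.closure A0) '' A) (by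
        rintro _ ⟨a, ha, rfl⟩
        exact ⟨a⁻¹, hinv a ha, rfl⟩) (by
        rintro _ ⟨a, ha, rfl⟩ g
        rw [hab g, mul_inv_cancel_right]
        exact ⟨a, ha, rfl⟩) (by
        have h1 := Subgroup.map_top_of_surjective (QuotientGroup.mk' (Subgroup.closure A0))
          (QuotientGroup.mk'_surjective _)
        rw [← hgen, MonoidHom.map_closure] at h1
        exact h1)
    exact ⟨l, hl⟩
  · rw [not_nontrivial_iff_subsingleton] at hnt
    have hc : Nat.card (G ⧸ Subgroup.closure A0) = 1 := Nat.card_unique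
    refine ⟨[QuotientGroup.mk a0], by simp [hc], ?_, ?_⟩
    · intro a ha
      rw [List.mem_singleton] at ha
      exact ⟨a0, ha0, ha.symm⟩
    · intro i j hi hi' hj hj' _
      omega

end Q238.RS
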