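import Pool.Agent.Q238.RS.Group

/-!
# Cyclic listings for conjugation-closed sets of arbitrary finite groups
-/

namespace Q238.RS

open Equiv Finset

variable {G : Type*} [Group G]

theorem card_double [Finite G] {H K : Subgroup G} (hlt : H < K) :
    2 * Nat.card H ≤ Nat.card K := by
  have h1 : H.relIndex K * Nat.card H = Nat.card K := by
    have h := Subgroup.relIndex_mul_relIndex ⊥ H K bot_le hlt.le
    rw [Subgroup.relIndex_bot_left, Subgroup.relIndex_bot_left] at h
    rw [mul_comm]
    exact h
  have h2 : H.relIndex K ≠ 1 := by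
    intro h
    exact hlt.not_ge (Subgroup.relIndex_eq_one.mp h)
  have h3 : H.relIndex K ≠ 0 := by
    intro h
    rw [h, zero_mul] at h1
    have := Nat.card_pos (α := K)
    omega
  have h4 : 2 ≤ H.relIndex K := by omega
  calc 2 * Nat.card H ≤ H.relIndex K * Nat.card H := Nat.mul_le_mul_right _ h4
    _ = Nat.card K := h1

/-- The invariant of the chain. -/
def ChainInv (A : Set G) (δ : ℕ) (H : Subgroup G) : Prop :=
  ∃ C : Finset G, (∀ c ∈ C, c ∈ A) ∧ Subgroup.closure (C : Set G) = H ∧
    C.card + 1 + δ ≤ Nat.card H ∧ HCyc A (H : Set G)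

theorem chain_step [Finite G] {A : Set G} (hinv : ∀ a ∈ A, a⁻¹ ∈ A)
    (hconj : ∀ a ∈ A, ∀ g : G, g⁻¹ * a * g ∈ A) (δ : ℕ) (hδ : 1 ≤ δ ∨ ∀ a ∈ A, a * a = 1)
    {H : Subgroup G} (hH : ChainInv A δ H) {c : G} (hc : c ∈ A) (hcH : c ∉ H) :
    ∃ K : Subgroup G, ChainInv A δ K ∧ H < K := by
  classical
  obtain ⟨C, hC, hcl, hcard, hcyc⟩ := hH
  have hCi : ∀ a ∈ insert c C, a ∈ A := by
    intro a ha
    rcases Finset.mem_insert.mp ha with rfl | ha
    · exact hc
    · exact hC a ha
  have hle : H ≤ Subgroup.closure ((insert c C : Finset G) : Set G) := by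
    rw [← hcl]
    apply Subgroup.closure_mono
    rw [Finset.coe_insert]
    exact Set.subset_insert _ _
  have hmem : c ∈ Subgroup.closure ((insert c C : Finset G) : Set G) :=
    Subgroup.subset_closure (by simp)
  have hlt : H < Subgroup.closure ((insert c C : Finset G) : Set G) :=
    lt_of_le_of_ne hle (fun h => hcH (h ▸ hmem))
  have hci := Finset.card_insert_le c C
  have hd := card_double hlt
  refine ⟨_, ⟨insert c C, hCi, rfl, ?_, ?_⟩, hlt⟩
  · omega
  · refine HCyc.left hinv hconj hcyc hle (insert c C) hCi rfl δ ?_ (by omega)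
    rcases hδ with h | h
    · exact Or.inl h
    · exact Or.inr fun a ha => h a (hCi a ha)

theorem chain_top [Finite G] {A : Set G} (hinv : ∀ a ∈ A, a⁻¹ ∈ A)
    (hconj : ∀ a ∈ A, ∀ g : G, g⁻¹ * a * g ∈ A) (δ : ℕ) (hδ : 1 ≤ δ ∨ ∀ a ∈ A, a * a = 1)
    {H : Subgroup G} (hH : ChainInv A δ H) : HCyc A (Subgroup.closure A : Set G) := by
  generalize hn : Nat.card G - Nat.card H = n
  induction n using Nat.strong_induction_on generalizing H with
  | _ n ih =>
    by_cases hA : ∀ a ∈ A, a ∈ H
    · have h1 : Subgroup.closure A = H := by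
        apply le_antisymm
        · rw [Subgroup.closure_le]
          exact hA
        · obtain ⟨C, hC, hcl, -, -⟩ := hH
          rw [← hcl]
          exact Subgroup.closure_mono hC
      rw [h1]
      obtain ⟨C, -, -, -, h⟩ := hH
      exact h
    · push Not at hA
      obtain ⟨c, hc, hcH⟩ := hA
      obtain ⟨K, hK, hlt⟩ := chain_step hinv hconj δ hδ hH hc hcH
      have hd := card_double hlt
      have hpos := Nat.card_pos (α := H)
      have hle := Subgroup.card_le_card_group K
      exact ih (Nat.card G - Nat.card K) (by omega) hK rfl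

/-- **Every nontrivial subgroup generated by a conjugation-closed symmetric set has a cyclic
listing with steps in that set.** -/
theorem hcyc_closure [Finite G] {A : Set G} (hinv : ∀ a ∈ A, a⁻¹ ∈ A)
    (hconj : ∀ a ∈ A, ∀ g : G, g⁻¹ * a * g ∈ A) (hne : Subgroup.closure A ≠ ⊥) :
    HCyc A (Subgroup.closure A : Set G) := by
  classical
  by_cases hall : ∀ a ∈ A, a * a = 1
  · obtain ⟨b, hb, hb1⟩ : ∃ b ∈ A, b ≠ 1 := by
      by_contra hno
      push Not at hno
      apply hne
      rw [Subgroup.closure_eq_bot_iff]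
      intro a ha
      exact hno a ha
    refine chain_top hinv hconj 0 (Or.inr hall) (H := Subgroup.zpowers b) ⟨{b}, ?_, ?_, ?_, ?_⟩
    · intro c hc
      rw [Finset.mem_singleton.mp hc]
      exact hb
    · rw [Finset.coe_singleton, Subgroup.zpowers_eq_closure]
    · rw [Finset.card_singleton, Nat.card_zpowers]
      have h1 : orderOf b ≠ 1 := fun h => hb1 (orderOf_eq_one_iff.mp h)
      have h2 := orderOf_pos b
      omega
    · exact HCyc.zpowers hb
  · push Not at hall
    obtain ⟨b, hb, hb2⟩ := hall
    refine chain_top hinv hconj 1 (Or.inl le_rfl) (H := Subgroup.zpowers b) ⟨{b}, ?_, ?_, ?_, ?_⟩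
    · intro c hc
      rw [Finset.mem_singleton.mp hc]
      exact hb
    · rw [Finset.coe_singleton, Subgroup.zpowers_eq_closure]
    · rw [Finset.card_singleton, Nat.card_zpowers]
      have h1 : orderOf b ≠ 1 := by
        intro h
        apply hb2
        rw [orderOf_eq_one_iff.mp h, one_mul]
      have h3 : orderOf b ≠ 2 := by
        intro h
        apply hb2
        have := pow_orderOf_eq_one b
        rwa [h, pow_two] at this
      have h2 := orderOf_pos b
      omega
    · exact HCyc.zpowers hb

/-- Few elements of a generating set generate modulo a subgroup. -/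
theorem exists_few [Finite G] {A : Set G} (N : Subgroup G) (hgen : Subgroup.closure A = ⊤) :
    ∃ C : Finset G, (∀ c ∈ C, c ∈ A) ∧ Subgroup.closure ((N : Set G) ∪ (C : Set G)) = ⊤ ∧
      2 ^ C.card * Nat.card N ≤ Nat.card G := by
  classical
  have key : ∀ n : ℕ, ∀ C : Finset G, (∀ c ∈ C, c ∈ A) →
      2 ^ C.card * Nat.card N ≤ Nat.card (Subgroup.closure ((N : Set G) ∪ (C : Set G))) →
      Nat.card G - Nat.card (Subgroup.closure ((N : Set G) ∪ (C : Set G))) = n →
      ∃ C : Finset G, (∀ c ∈ C, c ∈ A) ∧ Subgroup.closure ((N : Set G) ∪ (C : Set G)) = ⊤ ∧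
      2 ^ C.card * Nat.card N ≤ Nat.card G := by
    intro n
    induction n using Nat.strong_induction_on with
    | _ n ih =>
      intro C hC hcard hn
      by_cases hA : ∀ a ∈ A, a ∈ Subgroup.closure ((N : Set G) ∪ (C : Set G))
      · refine ⟨C, hC, ?_, ?_⟩
        · rw [eq_top_iff, ← hgen, Subgroup.closure_le]
          exact hA
        · exact hcard.trans (Subgroup.card_le_card_group _)
      · push Not at hA
        obtain ⟨c, hc, hcn⟩ := hA
        have hmem : c ∈ Subgroup.closure ((N : Set G) ∪ ((insert c C : Finset G) : Set G)) :=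
          Subgroup.subset_closure (Or.inr (by simp))
        have hle : Subgroup.closure ((N : Set G) ∪ (C : Set G))
            ≤ Subgroup.closure ((N : Set G) ∪ ((insert c C : Finset G) : Set G)) := by
          apply Subgroup.closure_mono
          apply Set.union_subset_union_right
          rw [Finset.coe_insert]
          exact Set.subset_insert _ _
        have hlt := lt_of_le_of_ne hle (fun h => hcn (h ▸ hmem))
        have hd := card_double hlt
        have hcC : c ∉ C := fun h => hcn (Subgroup.subset_closure (Or.inr h))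
        have hpos := Nat.card_pos (α := Subgroup.closure ((N : Set G) ∪ (C : Set G)))
        have hle2 := Subgroup.card_le_card_group
          (Subgroup.closure ((N : Set G) ∪ ((insert c C : Finset G) : Set G)))
        refine ih _ ?_ (insert c C) ?_ ?_ rfl
        · omega
        · intro a ha
          rcases Finset.mem_insert.mp ha with rfl | ha
          · exact hc
          · exact hC a ha
        · rw [Finset.card_insert_of_notMem hcC, pow_succ]
          calc 2 ^ C.card * 2 * Nat.card N = 2 * (2 ^ C.card * Nat.card N) := by ring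
            _ ≤ 2 * Nat.card (Subgroup.closure ((N : Set G) ∪ (C : Set G))) :=
              Nat.mul_le_mul_left _ hcard
            _ ≤ _ := hd
  refine key _ ∅ (by simp) ?_ rfl
  simp

/-- **Main theorem, permutation form.** -/
theorem hcyc_of_normal_subset [Finite G] {A A0 : Set G} (hinv : ∀ a ∈ A, a⁻¹ ∈ A)
    (hgen : Subgroup.closure A = ⊤) (hsub : A0 ⊆ A) (h0inv : ∀ a ∈ A0, a⁻¹ ∈ A0)
    (h0conj : ∀ a ∈ A0, ∀ g : G, g⁻¹ * a * g ∈ A0) (hne : Subgroup.closure A0 ≠ ⊥)
    (hidx : (Subgroup.closure A0).index < 2 ^ Nat.card (Subgroup.closure A0)) :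
    HCyc A (Set.univ : Set G) := by
  have hN : (Subgroup.closure A0).Normal := by
    have h1 : ∀ g : G, ∀ x ∈ Subgroup.closure A0, g * x * g⁻¹ ∈ Subgroup.closure A0 := by
      intro g x hx
      induction hx using Subgroup.closure_induction with
      | mem a ha =>
        apply Subgroup.subset_closure
        have := h0conj a ha g⁻¹
        rwa [inv_inv] at this
      | one => simp
      | mul a b _ _ ha hb =>
        have h2 : g * (a * b) * g⁻¹ = (g * a * g⁻¹) * (g * b * g⁻¹) := by group
        rw [h2]
        exact Subgroup.mul_mem _ ha hb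
      | inv a _ ha =>
        have h2 : g * a⁻¹ * g⁻¹ = (g * a * g⁻¹)⁻¹ := by group
        rw [h2]
        exact Subgroup.inv_mem _ ha
    exact ⟨fun x hx g => h1 g x hx⟩
  have hcyc := hcyc_closure h0inv h0conj hne
  obtain ⟨C, hC, hcl, hcard⟩ := exists_few (Subgroup.closure A0) hgen
  refine HCyc.right hinv hsub h0inv h0conj hN hcyc C hC hcl ?_
  have h1 : (Subgroup.closure A0).index * Nat.card (Subgroup.closure A0) = Nat.card G := by
    rw [mul_comm]
    exact Subgroup.card_mul_index _
  rw [← h1] at hcard
  have hpos := Nat.card_pos (α := Subgroup.closure A0)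
  have h2 : 2 ^ C.card ≤ (Subgroup.closure A0).index := Nat.le_of_mul_le_mul_right hcard hpos
  have h3 : 2 ^ C.card < 2 ^ Nat.card (Subgroup.closure A0) := lt_of_le_of_lt h2 hidx
  exact (Nat.pow_lt_pow_iff_right (by norm_num)).mp h3

end Q238.RS
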