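import Pool.Agent.Q238.RS.Merge

/-!
# Cyclic listings of subgroups along conjugation-closed sets
-/

namespace Q238.RS

open Equiv Finset

variable {G : Type*} [Group G]

/-- A cyclic listing of the set `H` with all steps in `A`. -/
def HCyc (A : Set G) (H : Set G) : Prop :=
  ∃ σ : Perm G, σ.IsCycleOn H ∧ (∀ x, x ∉ H → σ x = x) ∧ ∀ x ∈ H, x⁻¹ * σ x ∈ A

theorem inv_eq_pow [Finite G] (g : G) : ∃ n : ℕ, g⁻¹ = g ^ n := by
  have hpos : 0 < orderOf g := orderOf_pos g
  refine ⟨orderOf g - 1, ?_⟩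
  have h1 : g * g ^ (orderOf g - 1) = 1 := by
    rw [← pow_succ', Nat.sub_add_cancel hpos, pow_orderOf_eq_one]
  exact (eq_inv_of_mul_eq_one_right h1).symm

theorem closure_left [Finite G] {S C : Set G} (h : ∀ c ∈ C, ∀ x ∈ S, c * x ∈ S) :
    ∀ g ∈ Subgroup.closure C, ∀ x ∈ S, g * x ∈ S := by
  intro g hg
  induction hg using Subgroup.closure_induction with
  | mem c hc => exact h c hc
  | one => intro x hx; rwa [one_mul]
  | mul a b _ _ ha hb => intro x hx; rw [mul_assoc]; exact ha _ (hb x hx)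
  | inv a _ ha =>
    have hp : ∀ n : ℕ, ∀ x ∈ S, a ^ n * x ∈ S := by
      intro n
      induction n with
      | zero => intro x hx; rwa [pow_zero, one_mul]
      | succ n ih => intro x hx; rw [pow_succ', mul_assoc]; exact ha _ (ih x hx)
    intro x hx
    obtain ⟨n, hn⟩ := inv_eq_pow a
    rw [hn]
    exact hp n x hx

theorem closure_right [Finite G] {S C : Set G} (h : ∀ c ∈ C, ∀ x ∈ S, x * c ∈ S) :
    ∀ g ∈ Subgroup.closure C, ∀ x ∈ S, x * g ∈ S := by
  intro g hg
  induction hg using Subgroup.closure_induction with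
  | mem c hc => exact h c hc
  | one => intro x hx; rwa [mul_one]
  | mul a b _ _ ha hb => intro x hx; rw [← mul_assoc]; exact hb _ (ha x hx)
  | inv a _ ha =>
    have hp : ∀ n : ℕ, ∀ x ∈ S, x * a ^ n ∈ S := by
      intro n
      induction n with
      | zero => intro x hx; rwa [pow_zero, mul_one]
      | succ n ih => intro x hx; rw [pow_succ, ← mul_assoc]; exact ha _ (ih x hx)
    intro x hx
    obtain ⟨n, hn⟩ := inv_eq_pow a
    rw [hn]
    exact hp n x hx

/-- The setup for left multiplications and the left cosets of a subgroup. -/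
def leftSetup (A : Set G) (hinv : ∀ a ∈ A, a⁻¹ ∈ A) (hconj : ∀ a ∈ A, ∀ g : G, g⁻¹ * a * g ∈ A)
    (H H' : Subgroup G) (hle : H ≤ H') (C : Finset G) (hC : ∀ c ∈ C, c ∈ A)
    (hC' : ∀ c ∈ C, c ∈ H') : Setup G {c // c ∈ C} where
  adj x y := x⁻¹ * y ∈ A
  good x y := x⁻¹ * y ∈ A ∧ x⁻¹ * y ∈ H
  r x y := x⁻¹ * y ∈ H
  m c := Equiv.mulLeft c.1
  W := H'
  req := ⟨fun x => by simp, fun {x y} h => by simpa using H.inv_mem h,
    fun {x y z} h1 h2 => by simpa [mul_assoc] using H.mul_mem h1 h2⟩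
  adj_symm x y h := by simpa using hinv _ h
  good_symm x y h := ⟨by simpa using hinv _ h.1, by simpa using H.inv_mem h.2⟩
  good_adj x y h := h.1
  m_adj c x _ := by
    have := hconj c.1 (hC c.1 c.2) x
    simpa [mul_assoc] using this
  m_r c x y := by simp [mul_assoc]
  m_good c x y h := by simpa [mul_assoc] using h
  W_r x y hx h := by
    have := H'.mul_mem hx (hle h)
    simpa using this
  W_m c x hx := H'.mul_mem (hC' c.1 c.2) hx

theorem HCyc.left [Finite G] {A : Set G} (hinv : ∀ a ∈ A, a⁻¹ ∈ A)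
    (hconj : ∀ a ∈ A, ∀ g : G, g⁻¹ * a * g ∈ A) {H H' : Subgroup G} (hH : HCyc A (H : Set G))
    (hle : H ≤ H') (C : Finset G) (hC : ∀ c ∈ C, c ∈ A)
    (hcl : Subgroup.closure (C : Set G) = H') (δ : ℕ) (hδ : 1 ≤ δ ∨ ∀ c ∈ C, c * c = 1)
    (hcard : C.card + δ ≤ Nat.card H) : HCyc A (H' : Set G) := by
  classical
  have := Fintype.ofFinite G
  obtain ⟨σ, hσ, hout, hst⟩ := hH
  have hC' : ∀ c ∈ C, c ∈ H' := fun c hc => hcl ▸ Subgroup.subset_closure hc
  set D := leftSetup A hinv hconj H H' hle C hC hC' with hD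
  have hr : ∀ x y, D.r x y ↔ x⁻¹ * y ∈ H := fun _ _ => Iff.rfl
  have hrH : ∀ x ∈ H, ∀ y, D.r x y ↔ y ∈ H := by
    intro x hx y
    rw [hr]
    exact H.mul_mem_cancel_left (H.inv_mem hx)
  set S0 : Finset G := univ.filter (fun x => x ∈ H) with hS0
  have mS0 : ∀ x, x ∈ S0 ↔ x ∈ H := by intro x; simp [hS0]
  have hst0 : State D δ (Nat.card H) S0 σ σ := by
    refine ⟨?_, ?_, ?_, ?_, ?_, ?_, ?_, ?_, ?_, ?_⟩
    · intro x hx
      exact hle ((mS0 x).mp hx)
    · intro x hx y hy
      rw [mS0] at hx ⊢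
      exact (hrH x hx y).mp hy
    · have : (S0 : Set G) = (H : Set G) := by
        ext x
        simp [mS0]
      rw [this]
      exact hσ
    · intro x hx
      rw [mS0] at hx
      exact hout x hx
    · intro x hx
      rw [mS0] at hx
      exact hout x hx
    · intro x hx
      rw [mS0] at hx
      exact hst x hx
    · intro x hx
      rw [mS0] at hx
      exact ⟨hst x hx, H.mul_mem (H.inv_mem hx) (hσ.1.mapsTo hx)⟩
    · intro x hx
      rw [mS0] at hx
      have : {y | D.r x y} = (H : Set G) := by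
        ext y
        exact hrH x hx y
      rw [this]
      exact hσ
    · intro x _
      simp
    · intro x hx
      rw [mS0] at hx
      rw [Nat.card_eq_fintype_card, Fintype.card_subtype]
      congr 1
      ext y
      simp only [mem_filter, mem_univ, true_and]
      exact hrH x hx y
  obtain ⟨S, f, g, hS, hsub, hclo⟩ := hst0.exists_closed (by simpa using hcard) (by
    rcases hδ with h | h
    · exact Or.inl h
    · right
      intro c x
      show (c.1 * (c.1 * x))⁻¹ * x ∈ H
      have h1 : c.1 * (c.1 * x) = x := by rw [← mul_assoc, h c.1 c.2, one_mul]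
      rw [h1]
      simp)
  have hSH : (S : Set G) = (H' : Set G) := by
    ext x
    constructor
    · intro hx
      exact hS.sub x hx
    · intro hx
      have h1 : (1 : G) ∈ S := hsub ((mS0 1).mpr H.one_mem)
      have h2 := closure_left (S := (S : Set G)) (C := (C : Set G))
        (fun c hc y hy => hclo y hy ⟨c, hc⟩) x (by rw [hcl]; exact hx) 1 h1
      rwa [mul_one] at h2
  refine ⟨f, ?_, ?_, ?_⟩
  · rw [← hSH]
    exact hS.fcyc
  · intro x hx
    apply hS.fout
    intro hc
    apply hx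
    rw [← hSH]
    exact hc
  · intro x hx
    apply hS.fadj
    have : x ∈ (S : Set G) := by rw [hSH]; exact hx
    exact this

/-- The setup for right multiplications and the cosets of a normal subgroup. -/
def rightSetup (A A0 : Set G) (hinv : ∀ a ∈ A, a⁻¹ ∈ A) (hsub : A0 ⊆ A)
    (h0inv : ∀ a ∈ A0, a⁻¹ ∈ A0) (h0conj : ∀ a ∈ A0, ∀ g : G, g⁻¹ * a * g ∈ A0)
    (N : Subgroup G) (hN : N.Normal) (C : Finset G) (hC : ∀ c ∈ C, c ∈ A) :
    Setup G {c // c ∈ C} where
  adj x y := x⁻¹ * y ∈ A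
  good x y := x⁻¹ * y ∈ A0
  r x y := x⁻¹ * y ∈ N
  m c := Equiv.mulRight c.1
  W := Set.univ
  req := ⟨fun x => by simp, fun {x y} h => by simpa using N.inv_mem h,
    fun {x y z} h1 h2 => by simpa [mul_assoc] using N.mul_mem h1 h2⟩
  adj_symm x y h := by simpa using hinv _ h
  good_symm x y h := by simpa using h0inv _ h
  good_adj x y h := hsub h
  m_adj c x _ := by
    have := hC c.1 c.2
    simpa using this
  m_r c x y := by
    have h1 : (x * c.1)⁻¹ * (y * c.1) = c.1⁻¹ * (x⁻¹ * y) * c.1 := by group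
    show (x * c.1)⁻¹ * (y * c.1) ∈ N ↔ x⁻¹ * y ∈ N
    rw [h1]
    constructor
    · intro h
      have := hN.conj_mem _ h c.1
      simpa [mul_assoc] using this
    · intro h
      have := hN.conj_mem _ h c.1⁻¹
      simpa using this
  m_good c x y h := by
    show (x * c.1)⁻¹ * (y * c.1) ∈ A0
    have h1 : (x * c.1)⁻¹ * (y * c.1) = c.1⁻¹ * (x⁻¹ * y) * c.1 := by group
    rw [h1]
    exact h0conj _ h _
  W_r x y _ _ := Set.mem_univ _
  W_m c x _ := Set.mem_univ _

theorem HCyc.right [Finite G] {A A0 : Set G} (hinv : ∀ a ∈ A, a⁻¹ ∈ A) (hsub : A0 ⊆ A)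
    (h0inv : ∀ a ∈ A0, a⁻¹ ∈ A0) (h0conj : ∀ a ∈ A0, ∀ g : G, g⁻¹ * a * g ∈ A0)
    {N : Subgroup G} (hN : N.Normal) (hH : HCyc A0 (N : Set G)) (C : Finset G)
    (hC : ∀ c ∈ C, c ∈ A) (hcl : Subgroup.closure ((N : Set G) ∪ (C : Set G)) = ⊤)
    (hcard : C.card + 1 ≤ Nat.card N) : HCyc A (Set.univ : Set G) := by
  classical
  have := Fintype.ofFinite G
  obtain ⟨σ, hσ, hout, hst⟩ := hH
  set D := rightSetup A A0 hinv hsub h0inv h0conj N hN C hC with hD
  have hr : ∀ x y, D.r x y ↔ x⁻¹ * y ∈ N := fun _ _ => Iff.rfl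
  have hrH : ∀ x ∈ N, ∀ y, D.r x y ↔ y ∈ N := by
    intro x hx y
    rw [hr]
    exact N.mul_mem_cancel_left (N.inv_mem hx)
  set S0 : Finset G := univ.filter (fun x => x ∈ N) with hS0
  have mS0 : ∀ x, x ∈ S0 ↔ x ∈ N := by intro x; simp [hS0]
  have hst0 : State D 1 (Nat.card N) S0 σ σ := by
    refine ⟨?_, ?_, ?_, ?_, ?_, ?_, ?_, ?_, ?_, ?_⟩
    · intro x _
      exact Set.mem_univ _
    · intro x hx y hy
      rw [mS0] at hx ⊢
      exact (hrH x hx y).mp hy
    · have : (S0 : Set G) = (N : Set G) := by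
        ext x
        simp [mS0]
      rw [this]
      exact hσ
    · intro x hx
      rw [mS0] at hx
      exact hout x hx
    · intro x hx
      rw [mS0] at hx
      exact hout x hx
    · intro x hx
      rw [mS0] at hx
      exact hsub (hst x hx)
    · intro x hx
      rw [mS0] at hx
      exact hst x hx
    · intro x hx
      rw [mS0] at hx
      have : {y | D.r x y} = (N : Set G) := by
        ext y
        exact hrH x hx y
      rw [this]
      exact hσ
    · intro x _
      simp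
    · intro x hx
      rw [mS0] at hx
      rw [Nat.card_eq_fintype_card, Fintype.card_subtype]
      congr 1
      ext y
      simp only [mem_filter, mem_univ, true_and]
      exact hrH x hx y
  obtain ⟨S, f, g, hS, hsub', hclo⟩ := hst0.exists_closed (by simpa using hcard) (Or.inl le_rfl)
  have hSH : (S : Set G) = Set.univ := by
    rw [Set.eq_univ_iff_forall]
    intro x
    have h1 : (1 : G) ∈ S := hsub' ((mS0 1).mpr N.one_mem)
    have h2 := closure_right (S := (S : Set G)) (C := (N : Set G) ∪ (C : Set G)) (by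
      rintro c (hc | hc) y hy
      · refine hS.closed y hy _ ?_
        rw [hr]
        simpa using hc
      · exact hclo y hy ⟨c, hc⟩) x (by rw [hcl]; trivial) 1 h1
    rwa [one_mul] at h2
  refine ⟨f, ?_, ?_, ?_⟩
  · rw [← hSH]
    exact hS.fcyc
  · intro x hx
    exact absurd (Set.mem_univ x) hx
  · intro x _
    apply hS.fadj
    have : x ∈ (S : Set G) := by rw [hSH]; trivial
    exact this

theorem HCyc.zpowers [Finite G] {A : Set G} {b : G} (hb : b ∈ A) :
    HCyc A (Subgroup.zpowers b : Set G) := by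
  classical
  have hp : ∀ x, Equiv.mulRight b x ∈ Subgroup.zpowers b ↔ x ∈ Subgroup.zpowers b := by
    intro x
    exact Subgroup.mul_mem_cancel_right _ (Subgroup.mem_zpowers b)
  have hcyc : (Equiv.mulRight b).IsCycleOn (Subgroup.zpowers b : Set G) := by
    refine ⟨?_, ?_⟩
    · exact Equiv.bijOn _ fun x => hp x
    · rintro x hx y hy
      obtain ⟨i, rfl⟩ := Subgroup.mem_zpowers_iff.mp hx
      obtain ⟨j, rfl⟩ := Subgroup.mem_zpowers_iff.mp hy
      refine ⟨j - i, ?_⟩
      rw [Equiv.zpow_mulRight, Equiv.coe_mulRight]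
      show b ^ i * b ^ (j - i) = b ^ j
      rw [← zpow_add]
      congr 1
      ring
  refine ⟨Perm.ofSubtype ((Equiv.mulRight b).subtypePerm hp), ?_, ?_, ?_⟩
  · refine isCycleOn_congr (Set.toFinite _) hcyc ?_
    intro x hx
    rw [Perm.ofSubtype_apply_of_mem _ hx]
    rfl
  · intro x hx
    exact Perm.ofSubtype_apply_of_not_mem _ hx
  · intro x hx
    rw [Perm.ofSubtype_apply_of_mem _ hx]
    show x⁻¹ * (x * b) ∈ A
    simpa using hb

end Q238.RS
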