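import Pool.Agent.Q238.RS.Chain

/-!
# Listing sequences
-/

namespace Q238.RS

open Equiv Finset

variable {G : Type*} [Group G]

/-- `l = [a_1, …, a_n]` is a listing sequence of elements of `A`: it has length `n = |G|`, its
terms lie in `A`, and the partial products `a_1 ⋯ a_k`, `1 ≤ k ≤ n`, are pairwise distinct. -/
def IsListing (A : Set G) (l : List G) : Prop :=
  l.length = Nat.card G ∧ (∀ a ∈ l, a ∈ A) ∧
    ∀ i j, 1 ≤ i → i ≤ Nat.card G → 1 ≤ j → j ≤ Nat.card G →
      (l.take i).prod = (l.take j).prod → i = j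

theorem take_prod_steps (s : ℕ → G) (n k : ℕ) (hk : k ≤ n) :
    (((List.range n).map fun i => (s i)⁻¹ * s (i + 1)).take k).prod = (s 0)⁻¹ * s k := by
  rw [← List.map_take, List.take_range, min_eq_left hk]
  clear hk
  induction k with
  | zero => simp
  | succ k ih =>
    rw [List.range_succ, List.map_append, List.prod_append, ih]
    simp [mul_assoc]

/-- The cyclic listing as a list. -/
theorem closed_listing_of_hcyc [Finite G] {A : Set G} (h : HCyc A (Set.univ : Set G)) :
    ∃ l : List G, IsListing A l ∧ l.prod = 1 := by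
  classical
  have := Fintype.ofFinite G
  obtain ⟨σ, hσ, -, hst⟩ := h
  have hσ' : σ.IsCycleOn ((Finset.univ : Finset G) : Set G) := by
    rw [Finset.coe_univ]; exact hσ
  have hcard : (Finset.univ : Finset G).card = Nat.card G := by
    rw [Finset.card_univ, Nat.card_eq_fintype_card]
  have hclose : (σ ^ Nat.card G) 1 = 1 := by
    rw [← hcard]
    exact hσ'.pow_card_apply (Finset.mem_univ 1)
  have hpos : 0 < Nat.card G := Nat.card_pos
  refine ⟨(List.range (Nat.card G)).map fun i => ((σ ^ i) 1)⁻¹ * (σ ^ (i + 1)) 1,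
    ⟨by simp, ?_, ?_⟩, ?_⟩
  · intro a ha
    obtain ⟨i, -, rfl⟩ := List.mem_map.mp ha
    rw [pow_succ', Perm.mul_apply]
    exact hst _ (Set.mem_univ _)
  · intro i j hi hi' hj hj' heq
    rw [take_prod_steps (fun i => (σ ^ i) 1) _ i hi', take_prod_steps (fun i => (σ ^ i) 1) _ j hj',
      mul_right_inj] at heq
    have h1 := (hσ'.pow_apply_eq_pow_apply (Finset.mem_univ (1 : G)) (m := i) (n := j)).mp heq
    rw [hcard] at h1
    rcases Nat.lt_or_ge i (Nat.card G) with hi2 | hi2
    · rcases Nat.lt_or_ge j (Nat.card G) with hj2 | hj2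
      · have h2 : i % Nat.card G = j % Nat.card G := h1
        rwa [Nat.mod_eq_of_lt hi2, Nat.mod_eq_of_lt hj2] at h2
      · have hj3 : j = Nat.card G := le_antisymm hj' hj2
        have h2 : i % Nat.card G = j % Nat.card G := h1
        rw [Nat.mod_eq_of_lt hi2, hj3, Nat.mod_self] at h2
        omega
    · have hi3 : i = Nat.card G := le_antisymm hi' hi2
      rcases Nat.lt_or_ge j (Nat.card G) with hj2 | hj2
      · have h2 : i % Nat.card G = j % Nat.card G := h1
        rw [Nat.mod_eq_of_lt hj2, hi3, Nat.mod_self] at h2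
        omega
      · omega
  · have h1 := take_prod_steps (fun i => (σ ^ i) 1) (Nat.card G) (Nat.card G) le_rfl
    rw [List.take_of_length_le (by simp)] at h1
    rw [h1, hclose]
    simp

/-- A Hamiltonian path, as a sequence of the elements of the group. -/
def PathFn (A : Set G) (H : Set G) (n : ℕ) (s : ℕ → G) : Prop :=
  (∀ k, k < n → s k ∈ H) ∧ (∀ i j, i < n → j < n → s i = s j → i = j) ∧
    ∀ k, k + 1 < n → (s k)⁻¹ * s (k + 1) ∈ A

theorem listing_of_path [Finite G] {A : Set G} {a0 : G} (ha0 : a0 ∈ A) {s : ℕ → G}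
    (hs : PathFn A Set.univ (Nat.card G) s) : ∃ l : List G, IsListing A l := by
  obtain ⟨-, hinj, hst⟩ := hs
  have hpos : 0 < Nat.card G := Nat.card_pos
  set s' : ℕ → G := fun k => if k = 0 then 1 else a0 * (s 0)⁻¹ * s (k - 1) with hs'
  have hs0 : s' 0 = 1 := by simp [hs']
  have hss : ∀ k, s' (k + 1) = a0 * (s 0)⁻¹ * s k := by intro k; simp [hs']
  refine ⟨(List.range (Nat.card G)).map fun i => (s' i)⁻¹ * s' (i + 1), by simp, ?_, ?_⟩
  · intro a ha
    obtain ⟨i, hi, rfl⟩ := List.mem_map.mp ha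
    rw [List.mem_range] at hi
    rcases Nat.eq_zero_or_pos i with h0 | h0
    · subst h0
      rw [hs0, hss]
      simpa using ha0
    · obtain ⟨k, rfl⟩ : ∃ k, i = k + 1 := ⟨i - 1, by omega⟩
      rw [hss, hss]
      have h1 : (a0 * (s 0)⁻¹ * s k)⁻¹ * (a0 * (s 0)⁻¹ * s (k + 1)) = (s k)⁻¹ * s (k + 1) := by
        group
      rw [h1]
      exact hst k hi
  · intro i j hi hi' hj hj' heq
    rw [take_prod_steps s' _ i hi', take_prod_steps s' _ j hj', mul_right_inj] at heq
    obtain ⟨i', rfl⟩ : ∃ k, i = k + 1 := ⟨i - 1, by omega⟩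
    obtain ⟨j', rfl⟩ : ∃ k, j = k + 1 := ⟨j - 1, by omega⟩
    rw [hss, hss, mul_right_inj] at heq
    rw [hinj i' j' (by omega) (by omega) heq]

theorem path_of_listing {A : Set G} {l : List G} (hl : IsListing A l) :
    PathFn A Set.univ (Nat.card G) (fun k => (l.take (k + 1)).prod) := by
  obtain ⟨hlen, hmem, hinj⟩ := hl
  refine ⟨fun _ _ => Set.mem_univ _, ?_, ?_⟩
  · intro i j hi hj h
    have := hinj (i + 1) (j + 1) (by omega) (by omega) (by omega) (by omega) h
    omega
  · intro k hk
    have hk' : k + 1 < l.length := by omega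
    have h1 : (l.take (k + 1 + 1)).prod = (l.take (k + 1)).prod * l[k + 1] := by
      rw [List.prod_take_succ l (k + 1) hk']
    show ((l.take (k + 1)).prod)⁻¹ * (l.take (k + 1 + 1)).prod ∈ A
    rw [h1, inv_mul_cancel_left]
    exact hmem _ (List.getElem_mem hk')

/-- Hamiltonian path of a subgroup generated by a conjugation-closed set, starting at `1`. -/
theorem path_closure [Finite G] {A : Set G} (hinv : ∀ a ∈ A, a⁻¹ ∈ A)
    (hconj : ∀ a ∈ A, ∀ g : G, g⁻¹ * a * g ∈ A) :
    ∃ ν : ℕ → G, ν 0 = 1 ∧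
      PathFn A (Subgroup.closure A : Set G) (Nat.card (Subgroup.closure A)) ν := by
  classical
  have := Fintype.ofFinite G
  by_cases hne : Subgroup.closure A = ⊥
  · refine ⟨fun _ => 1, rfl, fun _ _ => Subgroup.one_mem _, ?_, ?_⟩
    · intro i j hi hj _
      rw [hne, Subgroup.card_bot] at hi hj
      omega
    · intro k hk
      rw [hne, Subgroup.card_bot] at hk
      omega
  · obtain ⟨σ, hσ, -, hst⟩ := hcyc_closure hinv hconj hne
    set N := Subgroup.closure A with hN
    set F : Finset G := univ.filter (fun x => x ∈ N) with hF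
    have hFN : (F : Set G) = (N : Set G) := by
      ext x; simp [hF]
    have hσ' : σ.IsCycleOn (F : Set G) := by rw [hFN]; exact hσ
    have hcard : F.card = Nat.card N := by
      rw [Nat.card_eq_fintype_card, Fintype.card_subtype]
    have h1F : (1 : G) ∈ F := by simp [hF, N.one_mem]
    have hmem : ∀ k : ℕ, (σ ^ k) 1 ∈ (N : Set G) := by
      intro k
      induction k with
      | zero => exact N.one_mem
      | succ k ih => rw [pow_succ', Perm.mul_apply]; exact hσ.1.mapsTo ih
    refine ⟨fun k => (σ ^ k) 1, rfl, fun k _ => hmem k, ?_, ?_⟩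
    · intro i j hi hj h
      have h1 := (hσ'.pow_apply_eq_pow_apply h1F (m := i) (n := j)).mp h
      rw [hcard] at h1
      have h2 : i % Nat.card N = j % Nat.card N := h1
      rwa [Nat.mod_eq_of_lt hi, Nat.mod_eq_of_lt hj] at h2
    · intro k _
      show ((σ ^ k) 1)⁻¹ * (σ ^ (k + 1)) 1 ∈ A
      rw [pow_succ', Perm.mul_apply]
      exact hst _ (hmem k)

/-- **Reduction to the quotient.** -/
theorem path_of_quotient [Finite G] {A : Set G} (N : Subgroup G) [N.Normal] {A0 : Set G}
    (hsub : A0 ⊆ A) {ν : ℕ → G} (hν0 : ν 0 = 1) (hν : PathFn A0 (N : Set G) (Nat.card N) ν)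
    {t : ℕ → G ⧸ N}
    (ht : PathFn ((QuotientGroup.mk : G → G ⧸ N) '' A) Set.univ (Nat.card (G ⧸ N)) t) :
    ∃ s : ℕ → G, PathFn A Set.univ (Nat.card G) s := by
  classical
  obtain ⟨hνm, hνi, hνs⟩ := hν
  obtain ⟨-, hti, hts⟩ := ht
  set m := Nat.card N with hm
  set q := Nat.card (G ⧸ N) with hq
  have hmpos : 0 < m := Nat.card_pos
  have hqm : Nat.card G = q * m := by
    rw [hq, hm]
    exact Subgroup.card_eq_card_quotient_mul_card_subgroup N
  -- lifts of the steps
  have hlift : ∀ j, ∃ a : G, j + 1 < q → a ∈ A ∧ (QuotientGroup.mk a : G ⧸ N) = (t j)⁻¹ * t (j + 1) := by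
    intro j
    by_cases hj : j + 1 < q
    · obtain ⟨a, ha, hat⟩ := hts j hj
      exact ⟨a, fun _ => ⟨ha, hat⟩⟩
    · exact ⟨1, fun h => absurd h hj⟩
  choose a ha using hlift
  obtain ⟨x0, hx0⟩ := QuotientGroup.mk_surjective (s := N) (t 0)
  set T : ℕ → G := fun j => Nat.rec x0 (fun j y => y * ν (m - 1) * a j) j with hT
  have hT0 : T 0 = x0 := rfl
  have hTs : ∀ j, T (j + 1) = T j * ν (m - 1) * a j := fun j => rfl
  have hνmem : ∀ k, k < m → (QuotientGroup.mk (ν k) : G ⧸ N) = 1 := by
    intro k hk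
    rw [QuotientGroup.eq_one_iff]
    exact hνm k hk
  have hTt : ∀ j, j < q → (QuotientGroup.mk (T j) : G ⧸ N) = t j := by
    intro j
    induction j with
    | zero => intro _; rw [hT0, hx0]
    | succ j ih =>
      intro hj
      rw [hTs, QuotientGroup.mk_mul, QuotientGroup.mk_mul, ih (by omega),
        hνmem (m - 1) (by omega), (ha j hj).2]
      group
  refine ⟨fun k => T (k / m) * ν (k % m), fun _ _ => Set.mem_univ _, ?_, ?_⟩
  · intro i j hi hj h
    rw [hqm] at hi hj
    have hi' : i / m < q := (Nat.div_lt_iff_lt_mul hmpos).mpr hi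
    have hj' : j / m < q := (Nat.div_lt_iff_lt_mul hmpos).mpr hj
    have hmi : i % m < m := Nat.mod_lt _ hmpos
    have hmj : j % m < m := Nat.mod_lt _ hmpos
    have h1 : (QuotientGroup.mk (T (i / m) * ν (i % m)) : G ⧸ N)
        = QuotientGroup.mk (T (j / m) * ν (j % m)) := by
      exact congrArg _ h
    rw [QuotientGroup.mk_mul, QuotientGroup.mk_mul, hTt _ hi', hTt _ hj', hνmem _ hmi,
      hνmem _ hmj, mul_one, mul_one] at h1
    have h2 := hti _ _ hi' hj' h1
    have h3 : T (i / m) * ν (i % m) = T (j / m) * ν (j % m) := h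
    rw [h2, mul_right_inj] at h3
    have h4 := hνi _ _ hmi hmj h3
    rw [← Nat.div_add_mod i m, ← Nat.div_add_mod j m, h2, h4]
  · intro k hk
    show (T (k / m) * ν (k % m))⁻¹ * (T ((k + 1) / m) * ν ((k + 1) % m)) ∈ A
    rw [hqm] at hk
    have hmk : k % m < m := Nat.mod_lt _ hmpos
    by_cases hlast : k % m + 1 = m
    · have h1 : (k + 1) % m = 0 := by
        rw [Nat.add_mod, ]
        have : k % m + 1 % m = k % m + 1 % m := rfl
        rcases Nat.lt_or_ge 1 m with h | h
        · rw [Nat.mod_eq_of_lt h, hlast, Nat.mod_self]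
        · have : m = 1 := by omega
          rw [this]
          simp [Nat.mod_one]
      have h2 : (k + 1) / m = k / m + 1 := by
        have e1 := Nat.div_add_mod k m
        have e2 : k + 1 = m * (k / m + 1) := by
          rw [Nat.mul_add, Nat.mul_one]
          omega
        rw [e2, Nat.mul_div_cancel_left _ hmpos]
      have h3 : k / m + 1 < q := by
        rw [← h2]
        exact (Nat.div_lt_iff_lt_mul hmpos).mpr hk
      rw [h1, h2, hTs, hν0, mul_one, show k % m = m - 1 by omega]
      have h4 : (T (k / m) * ν (m - 1))⁻¹ * (T (k / m) * ν (m - 1) * a (k / m)) = a (k / m) := by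
        group
      rw [h4]
      exact (ha _ h3).1
    · have h1 : (k + 1) % m = k % m + 1 := by
        have e1 := Nat.div_add_mod k m
        have e2 : k + 1 = (k % m + 1) + m * (k / m) := by omega
        rw [e2, Nat.add_mul_mod_self_left, Nat.mod_eq_of_lt (by omega)]
      have h2 : (k + 1) / m = k / m := by
        have e1 := Nat.div_add_mod k m
        have e2 : k + 1 = (k % m + 1) + m * (k / m) := by omega
        rw [e2, Nat.add_mul_div_left _ _ hmpos, Nat.div_eq_of_lt (by omega)]
        omega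
      rw [h1, h2]
      have h3 : (T (k / m) * ν (k % m))⁻¹ * (T (k / m) * ν (k % m + 1))
          = (ν (k % m))⁻¹ * ν (k % m + 1) := by group
      rw [h3]
      exact hsub (hνs _ (by omega))

end Q238.RS
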