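import Mathlib

/-!
# Merging cycles along moves

Abstract lemma: a finite set is partitioned into blocks of equal size, every block carries a local
cycle, and finitely many moves (permutations of the set which permute the blocks, carry local
steps to local steps and move every point to an adjacent point) connect the blocks. If the blocks
are larger than the number of moves, then all local cycles can be merged into one cycle.
-/

namespace Q238.RS

open Equiv Finset

variable {V : Type*}

theorem inv_ap (g : Perm V) (z : V) : g⁻¹ (g z) = z := g.symm_apply_apply z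

theorem ap_inv (g : Perm V) (z : V) : g (g⁻¹ z) = z := g.apply_symm_apply z

theorem isCycleOn_congr {f g : Perm V} {s : Set V} (hs : s.Finite) (hf : f.IsCycleOn s)
    (h : Set.EqOn f g s) : g.IsCycleOn s := by
  refine ⟨hf.1.congr h, ?_⟩
  intro x hx y hy
  obtain ⟨n, hn⟩ := hf.exists_pow_eq' hs hx hy
  have key : ∀ n : ℕ, (f ^ n) x ∈ s ∧ (g ^ n) x = (f ^ n) x := by
    intro n
    induction n with
    | zero => exact ⟨hx, rfl⟩
    | succ n ih =>
      rw [pow_succ', pow_succ', Perm.mul_apply, Perm.mul_apply, ih.2]
      exact ⟨hf.1.mapsTo ih.1, (h ih.1).symm⟩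
  refine ⟨n, ?_⟩
  rw [zpow_natCast, (key n).2, hn]

theorem isCycleOn_merge [DecidableEq V] {f k : Perm V} {S T : Set V} (hS : S.Finite)
    (hT : T.Finite) (hf : f.IsCycleOn S) (hk : k.IsCycleOn T) (hd : Disjoint S T)
    (hfT : ∀ x ∈ T, f x = x) (hkS : ∀ x ∈ S, k x = x) {u w : V} (hu : u ∈ S) (hw : w ∈ T) :
    (f * k * swap u w).IsCycleOn (S ∪ T) := by
  have hST : ∀ x, x ∈ S → x ∈ T → False := fun x h1 h2 => Set.disjoint_left.mp hd h1 h2
  set F : Perm V := f * k * swap u w with hF
  have Fu : F u = k w := by
    rw [hF, Perm.mul_apply, Perm.mul_apply, swap_apply_left, hfT _ (hk.1.mapsTo hw)]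
  have Fw : F w = f u := by
    rw [hF, Perm.mul_apply, Perm.mul_apply, swap_apply_right, hkS _ hu]
  have FS : ∀ x ∈ S, x ≠ u → F x = f x := by
    intro x hx hxu
    rw [hF, Perm.mul_apply, Perm.mul_apply,
      swap_apply_of_ne_of_ne hxu (fun h => hST x hx (h ▸ hw)), hkS _ hx]
  have FT : ∀ x ∈ T, x ≠ w → F x = k x := by
    intro x hx hxw
    rw [hF, Perm.mul_apply, Perm.mul_apply,
      swap_apply_of_ne_of_ne (fun h : x = u => hST x (h ▸ hu) hx) hxw, hfT _ (hk.1.mapsTo hx)]
  have hmaps : Set.MapsTo F (S ∪ T) (S ∪ T) := by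
    intro x hx
    rcases hx with hx | hx
    · by_cases hxu : x = u
      · rw [hxu, Fu]; exact Or.inr (hk.1.mapsTo hw)
      · rw [FS x hx hxu]; exact Or.inl (hf.1.mapsTo hx)
    · by_cases hxw : x = w
      · rw [hxw, Fw]; exact Or.inl (hf.1.mapsTo hu)
      · rw [FT x hx hxw]; exact Or.inr (hk.1.mapsTo hx)
  have c1 : ∀ n : ℕ, ∀ x ∈ S, (f ^ n) x = u → F.SameCycle x u := by
    intro n
    induction n with
    | zero => intro x _ hxu; exact (show x = u from hxu).sameCycle F
    | succ n ih =>
      intro x hx hxu
      by_cases h : x = u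
      · exact h.sameCycle F
      · have h1 := ih (f x) (hf.1.mapsTo hx) (by rw [← Perm.mul_apply, ← pow_succ]; exact hxu)
        rw [← FS x hx h] at h1
        exact Perm.sameCycle_apply_left.mp h1
  have c1' : ∀ x ∈ S, F.SameCycle x u := by
    intro x hx
    obtain ⟨n, hn⟩ := hf.exists_pow_eq' hS hx hu
    exact c1 n x hx hn
  have c2 : ∀ n : ℕ, ∀ x ∈ T, (k ^ n) x = w → F.SameCycle x w := by
    intro n
    induction n with
    | zero => intro x _ hxw; exact (show x = w from hxw).sameCycle F
    | succ n ih =>
      intro x hx hxw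
      by_cases h : x = w
      · exact h.sameCycle F
      · have h1 := ih (k x) (hk.1.mapsTo hx) (by rw [← Perm.mul_apply, ← pow_succ]; exact hxw)
        rw [← FT x hx h] at h1
        exact Perm.sameCycle_apply_left.mp h1
  have c2' : ∀ x ∈ T, F.SameCycle x w := by
    intro x hx
    obtain ⟨n, hn⟩ := hk.exists_pow_eq' hT hx hw
    exact c2 n x hx hn
  have c3 : F.SameCycle u w := by
    have h1 := c2' (k w) (hk.1.mapsTo hw)
    rw [← Fu] at h1
    exact Perm.sameCycle_apply_left.mp h1
  have c4 : ∀ x ∈ S ∪ T, F.SameCycle x u := by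
    rintro x (hx | hx)
    · exact c1' x hx
    · exact (c2' x hx).trans c3.symm
  refine ⟨?_, fun x hx y hy => (c4 x hx).trans (c4 y hy).symm⟩
  exact ⟨hmaps, F.injective.injOn,
    ((hS.union hT).injOn_iff_bijOn_of_mapsTo hmaps).mp F.injective.injOn |>.surjOn⟩

/-- The data of the merging lemma. -/
structure Setup (V ι : Type*) where
  adj : V → V → Prop
  good : V → V → Prop
  r : V → V → Prop
  m : ι → Perm V
  W : Set V
  req : Equivalence r
  adj_symm : ∀ x y, adj x y → adj y x
  good_symm : ∀ x y, good x y → good y x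
  good_adj : ∀ x y, good x y → adj x y
  m_adj : ∀ i, ∀ x ∈ W, adj x (m i x)
  m_r : ∀ i x y, r (m i x) (m i y) ↔ r x y
  m_good : ∀ i x y, good x y → good (m i x) (m i y)
  W_r : ∀ x y, x ∈ W → r x y → y ∈ W
  W_m : ∀ i, ∀ x ∈ W, m i x ∈ W

variable [Fintype V] {ι : Type*} [Fintype ι]

open Classical in
/-- A partially merged configuration: `f` is one cycle through the union `S` of blocks, `g` is the
collection of the local cycles. -/
structure State (D : Setup V ι) (δ k : ℕ) (S : Finset V) (f g : Perm V) : Prop where
  sub : ∀ x ∈ S, x ∈ D.W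
  closed : ∀ x ∈ S, ∀ y, D.r x y → y ∈ S
  fcyc : f.IsCycleOn (S : Set V)
  fout : ∀ x, x ∉ S → f x = x
  gout : ∀ x, x ∉ S → g x = x
  fadj : ∀ x ∈ S, D.adj x (f x)
  ggood : ∀ x ∈ S, D.good x (g x)
  gcyc : ∀ x ∈ S, g.IsCycleOn {y | D.r x y}
  cnt : ∀ x ∈ S, (univ.filter fun y => D.r x y ∧ f y ≠ g y).card
    ≤ δ + (univ.filter fun i => D.m i x ∈ S).card
  size : ∀ x ∈ S, (univ.filter fun y => D.r x y).card = k

open Classical in
theorem State.extend {D : Setup V ι} {δ k : ℕ} {S : Finset V} {f g : Perm V}
    (h : State D δ k S f g) (hk : Fintype.card ι + δ ≤ k)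
    (hδ : 1 ≤ δ ∨ ∀ i x, D.r (D.m i (D.m i x)) x) {x : V} (hx : x ∈ S) {i : ι}
    (hi : D.m i x ∉ S) : ∃ S' f' g', State D δ k S' f' g' ∧ S ⊂ S' := by
  -- a free slot
  obtain ⟨u, hxu, hfu⟩ : ∃ u, D.r x u ∧ f u = g u := by
    by_contra hno
    push Not at hno
    have h1 : (univ.filter fun y => D.r x y ∧ f y ≠ g y) = univ.filter fun y => D.r x y := by
      ext y
      simp only [mem_filter, mem_univ, true_and, and_iff_left_iff_imp]
      exact hno y
    have h2 := h.cnt x hx
    rw [h1, h.size x hx] at h2
    have h3 : (univ.filter fun i => D.m i x ∈ S).card < Fintype.card ι := by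
      rw [← Finset.card_univ]
      apply Finset.card_lt_card
      rw [Finset.filter_ssubset]
      exact ⟨i, mem_univ _, hi⟩
    omega
  have huS : u ∈ S := h.closed x hx u hxu
  have hiu : D.m i u ∉ S := by
    intro hc
    exact hi (h.closed _ hc _ ((D.m_r i u x).mpr (D.req.symm hxu)))
  set P : V → Prop := fun z => D.r (D.m i u) z with hP
  set h0 : Perm V := D.m i * g⁻¹ * (D.m i)⁻¹ with hh0
  have hh0a : ∀ z, h0 (D.m i z) = D.m i (g⁻¹ z) := by
    intro z
    rw [hh0, Perm.mul_apply, Perm.mul_apply, inv_ap]
  have hPm : ∀ z, P (D.m i z) ↔ D.r u z := fun z => D.m_r i u z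
  have hginv : ∀ z, D.r u z ↔ D.r u (g⁻¹ z) := by
    intro z
    have := (h.gcyc u huS).apply_mem_iff (x := g⁻¹ z)
    rw [ap_inv] at this
    exact this
  have hPh : ∀ z, P (h0 z) ↔ P z := by
    intro z
    obtain ⟨z', rfl⟩ := (D.m i).surjective z
    rw [hh0a, hPm, hPm, ← hginv]
  set κ : Perm V := Perm.ofSubtype (h0.subtypePerm hPh) with hκ
  have κin : ∀ z, P z → κ z = h0 z := by
    intro z hz
    rw [hκ, Perm.ofSubtype_apply_of_mem _ hz]
    rfl
  have κout : ∀ z, ¬ P z → κ z = z := by
    intro z hz
    rw [hκ, Perm.ofSubtype_apply_of_not_mem _ hz]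
  have κP : ∀ z, P z → P (κ z) := by
    intro z hz
    rw [κin z hz, hPh]
    exact hz
  have hSP : ∀ z ∈ S, ¬ P z := by
    intro z hz hPz
    exact hiu (h.closed z hz _ (D.req.symm hPz))
  set v : V := g u with hv
  set w : V := D.m i v with hw
  have huv : D.r u v := by
    have := (h.gcyc u huS).apply_mem_iff (x := u)
    exact this.mpr (D.req.refl u)
  have hPw : P w := (hPm v).mpr huv
  have hvS : v ∈ S := h.closed u huS v huv
  have κw : κ w = D.m i u := by
    rw [κin w hPw, hw, hh0a, hv, inv_ap]
  set T : Finset V := univ.filter P with hT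
  have memT : ∀ z, z ∈ T ↔ P z := by
    intro z; rw [hT]; simp
  set g' : Perm V := g * κ with hg'
  set f' : Perm V := f * κ * swap u w with hf'
  have hwS : w ∉ S := fun hc => hSP w hc hPw
  have g'S : ∀ z ∈ S, g' z = g z := by
    intro z hz
    rw [hg', Perm.mul_apply, κout z (hSP z hz)]
  have g'T : ∀ z, P z → g' z = κ z := by
    intro z hz
    rw [hg', Perm.mul_apply]
    exact h.gout _ (fun hc => hSP _ hc (κP z hz))
  have f'u : f' u = D.m i u := by
    rw [hf', Perm.mul_apply, Perm.mul_apply, swap_apply_left, κw]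
    exact h.fout _ hiu
  have f'w : f' w = v := by
    rw [hf', Perm.mul_apply, Perm.mul_apply, swap_apply_right, κout u (hSP u huS), hfu]
  have f'S : ∀ z ∈ S, z ≠ u → f' z = f z := by
    intro z hz hzu
    rw [hf', Perm.mul_apply, Perm.mul_apply,
      swap_apply_of_ne_of_ne hzu (fun hc : z = w => hwS (hc ▸ hz)), κout z (hSP z hz)]
  have f'T : ∀ z, P z → z ≠ w → f' z = κ z := by
    intro z hz hzw
    rw [hf', Perm.mul_apply, Perm.mul_apply,
      swap_apply_of_ne_of_ne (fun hc : z = u => hSP u huS (hc ▸ hz)) hzw]
    exact h.fout _ (fun hc => hSP _ hc (κP z hz))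
  have κgood : ∀ z, P z → D.good z (κ z) := by
    intro z hz
    rw [κin z hz]
    obtain ⟨z', rfl⟩ := (D.m i).surjective z
    rw [hh0a]
    rw [hPm, hginv] at hz
    apply D.m_good
    apply D.good_symm
    have := h.ggood (g⁻¹ z') (h.closed u huS _ hz)
    rwa [ap_inv] at this
  have hcls : {y | P y} = (D.m i) '' {y | D.r u y} := by
    ext z
    constructor
    · intro hz
      obtain ⟨z', rfl⟩ := (D.m i).surjective z
      exact ⟨z', (hPm z').mp hz, rfl⟩
    · rintro ⟨z', hz', rfl⟩
      exact (hPm z').mpr hz'
  have κcyc : κ.IsCycleOn {y | P y} := by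
    have h1 : h0.IsCycleOn {y | P y} := by
      rw [hcls]
      exact ((h.gcyc u huS).inv).conj
    exact isCycleOn_congr (Set.toFinite _) h1 (fun z hz => (κin z hz).symm)
  refine ⟨S ∪ T, f', g', ⟨?_, ?_, ?_, ?_, ?_, ?_, ?_, ?_, ?_, ?_⟩, ?_⟩
  · -- sub
    intro z hz
    rcases Finset.mem_union.mp hz with hz | hz
    · exact h.sub z hz
    · rw [memT] at hz
      exact D.W_r _ _ (D.W_m i u (h.sub u huS)) hz
  · -- closed
    intro z hz y hy
    rcases Finset.mem_union.mp hz with hz | hz
    · exact Finset.mem_union_left _ (h.closed z hz y hy)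
    · rw [memT] at hz
      exact Finset.mem_union_right _ ((memT y).mpr (D.req.trans hz hy))
  · -- fcyc
    rw [Finset.coe_union]
    have hTc : (T : Set V) = {y | P y} := by
      ext z; simp only [Finset.mem_coe, memT, Set.mem_ofPred_eq]
    rw [hTc]
    refine isCycleOn_merge (Set.toFinite _) (Set.toFinite _) h.fcyc κcyc ?_ ?_ ?_ huS hPw
    · rw [Set.disjoint_left]
      intro z hz hz'
      exact hSP z hz hz'
    · intro z hz
      exact h.fout z (fun hc => hSP z hc hz)
    · intro z hz
      exact κout z (hSP z hz)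
  · -- fout
    intro z hz
    rw [Finset.mem_union, not_or, memT] at hz
    rw [hf', Perm.mul_apply, Perm.mul_apply,
      swap_apply_of_ne_of_ne (fun hc : z = u => hz.1 (hc ▸ huS)) (fun hc : z = w => hz.2 (hc ▸ hPw)),
      κout z hz.2]
    exact h.fout z hz.1
  · -- gout
    intro z hz
    rw [Finset.mem_union, not_or, memT] at hz
    rw [hg', Perm.mul_apply, κout z hz.2]
    exact h.gout z hz.1
  · -- fadj
    intro z hz
    rcases Finset.mem_union.mp hz with hz | hz
    · by_cases hzu : z = u
      · rw [hzu, f'u]
        exact D.m_adj i u (h.sub u huS)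
      · rw [f'S z hz hzu]
        exact h.fadj z hz
    · rw [memT] at hz
      by_cases hzw : z = w
      · rw [hzw, f'w]
        exact D.adj_symm _ _ (D.m_adj i v (h.sub v hvS))
      · rw [f'T z hz hzw]
        exact D.good_adj _ _ (κgood z hz)
  · -- ggood
    intro z hz
    rcases Finset.mem_union.mp hz with hz | hz
    · rw [g'S z hz]
      exact h.ggood z hz
    · rw [memT] at hz
      rw [g'T z hz]
      exact κgood z hz
  · -- gcyc
    intro z hz
    rcases Finset.mem_union.mp hz with hz | hz
    · refine isCycleOn_congr (Set.toFinite _) (h.gcyc z hz) ?_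
      intro y hy
      exact (g'S y (h.closed z hz y hy)).symm
    · rw [memT] at hz
      have h1 : {y | D.r z y} = {y | P y} := by
        ext y
        exact ⟨fun hy => D.req.trans hz hy, fun hy => D.req.trans (D.req.symm hz) hy⟩
      rw [h1]
      exact isCycleOn_congr (Set.toFinite _) κcyc (fun y hy => (g'T y hy).symm)
  · -- cnt
    intro z hz
    rcases Finset.mem_union.mp hz with hz | hz
    · by_cases hzu : D.r z u
      · have h1 : (univ.filter fun y => D.r z y ∧ f' y ≠ g' y)
            ⊆ insert u (univ.filter fun y => D.r z y ∧ f y ≠ g y) := by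
          intro y hy
          simp only [mem_filter, mem_univ, true_and] at hy
          rw [Finset.mem_insert]
          by_cases hyu : y = u
          · exact Or.inl hyu
          · right
            have hyS := h.closed z hz y hy.1
            rw [f'S y hyS hyu, g'S y hyS] at hy
            simp only [mem_filter, mem_univ, true_and]
            exact hy
        have h2 : insert i (univ.filter fun j => D.m j z ∈ S)
            ⊆ univ.filter fun j => D.m j z ∈ S ∪ T := by
          intro j hj
          simp only [mem_filter, mem_univ, true_and, Finset.mem_union, memT]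
          rcases Finset.mem_insert.mp hj with hj | hj
          · right
            rw [hj, hPm]
            exact D.req.symm hzu
          · left
            simpa using hj
        have h3 : i ∉ univ.filter fun j => D.m j z ∈ S := by
          simp only [mem_filter, mem_univ, true_and]
          intro hc
          exact hiu (h.closed _ hc _ ((D.m_r i z u).mpr hzu))
        have h4 := Finset.card_le_card h1
        have h5 := Finset.card_le_card h2
        rw [Finset.card_insert_of_notMem h3] at h5
        have h6 := Finset.card_insert_le u (univ.filter fun y => D.r z y ∧ f y ≠ g y)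
        have h7 := h.cnt z hz
        omega
      · have h1 : (univ.filter fun y => D.r z y ∧ f' y ≠ g' y)
            ⊆ (univ.filter fun y => D.r z y ∧ f y ≠ g y) := by
          intro y hy
          simp only [mem_filter, mem_univ, true_and] at hy ⊢
          have hyS := h.closed z hz y hy.1
          have hyu : y ≠ u := fun hc => hzu (hc ▸ hy.1)
          rw [f'S y hyS hyu, g'S y hyS] at hy
          exact hy
        have h2 : (univ.filter fun j => D.m j z ∈ S)
            ⊆ univ.filter fun j => D.m j z ∈ S ∪ T := by
          intro j hj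
          simp only [mem_filter, mem_univ, true_and, Finset.mem_union] at hj ⊢
          exact Or.inl hj
        have h4 := Finset.card_le_card h1
        have h5 := Finset.card_le_card h2
        have h7 := h.cnt z hz
        omega
    · rw [memT] at hz
      have h1 : (univ.filter fun y => D.r z y ∧ f' y ≠ g' y) ⊆ {w} := by
        intro y hy
        simp only [mem_filter, mem_univ, true_and] at hy
        rw [Finset.mem_singleton]
        by_contra hyw
        have hPy : P y := D.req.trans hz hy.1
        rw [f'T y hPy hyw, g'T y hPy] at hy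
        exact hy.2 rfl
      have h4 := Finset.card_le_card h1
      rw [Finset.card_singleton] at h4
      rcases hδ with hδ | hδ
      · omega
      · have h2 : 0 < (univ.filter fun j => D.m j z ∈ S ∪ T).card := by
          rw [Finset.card_pos]
          refine ⟨i, ?_⟩
          simp only [mem_filter, mem_univ, true_and, Finset.mem_union]
          left
          obtain ⟨z', rfl⟩ := (D.m i).surjective z
          rw [hPm] at hz
          exact h.closed z' (h.closed u huS z' hz) _ (D.req.symm (hδ i z'))
        omega
  · -- size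
    intro z hz
    rcases Finset.mem_union.mp hz with hz | hz
    · exact h.size z hz
    · rw [memT] at hz
      rw [← h.size u huS]
      have h1 : (univ.filter fun y => D.r z y) = (univ.filter fun y => D.r u y).image (D.m i) := by
        ext y
        simp only [mem_filter, mem_univ, true_and, Finset.mem_image]
        constructor
        · intro hy
          obtain ⟨y', rfl⟩ := (D.m i).surjective y
          exact ⟨y', (hPm y').mp (D.req.trans hz hy), rfl⟩
        · rintro ⟨y', hy', rfl⟩
          exact D.req.trans (D.req.symm hz) ((hPm y').mpr hy')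
      rw [h1, Finset.card_image_of_injective _ (D.m i).injective]
  · -- strictly larger
    rw [Finset.ssubset_iff_of_subset Finset.subset_union_left]
    exact ⟨D.m i u, Finset.mem_union_right _ ((memT _).mpr (D.req.refl _)), hiu⟩

/-- Starting from any state one reaches a state closed under all moves. -/
theorem State.exists_closed {D : Setup V ι} {δ k : ℕ} {S : Finset V} {f g : Perm V}
    (h : State D δ k S f g) (hk : Fintype.card ι + δ ≤ k)
    (hδ : 1 ≤ δ ∨ ∀ i x, D.r (D.m i (D.m i x)) x) :
    ∃ S' f' g', State D δ k S' f' g' ∧ S ⊆ S' ∧ ∀ x ∈ S', ∀ i, D.m i x ∈ S' := by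
  generalize hn : Fintype.card V - S.card = n
  induction n using Nat.strong_induction_on generalizing S f g with
  | _ n ih =>
    by_cases hc : ∀ x ∈ S, ∀ i, D.m i x ∈ S
    · exact ⟨S, f, g, h, subset_rfl, hc⟩
    · push Not at hc
      obtain ⟨x, hx, i, hi⟩ := hc
      obtain ⟨S1, f1, g1, h1, hS1⟩ := h.extend hk hδ hx hi
      have hlt := Finset.card_lt_card hS1
      have hle := Finset.card_le_univ S1
      obtain ⟨S2, f2, g2, h2, hS2, hcl⟩ := ih (Fintype.card V - S1.card) (by omega) h1 rfl
      exact ⟨S2, f2, g2, h2, hS1.1.trans hS2, hcl⟩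

end Q238.RS
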